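import Pool.Agent.Helper89.UG.PartA2
import Pool.Agent.Helper89.UG.PartB

/-!
# The Gromov-Hausdorff distance and the Urysohn orbit pseudometric are bi-reducible

`rhoGH` is the Gromov-Hausdorff distance of the completions of the metrics on the natural numbers,
and `rhoU U` is the orbit pseudometric of the action of the isometry group of the Urysohn space `U`
on its closed subsets with the Hausdorff distance. We show that each is Borel-uniformly continuous
reducible to the other one (all definitions are in `Pool/Agent/Helper89/UG/Defs.lean`).

* `rhoU U` reduces to `rhoGH`. The closed set `A` is coded by the space which consists of copies of
  a dense set of `U` with the metrics `2 ^ n * min 1 d`, `n = 0, 1, ...`, and one more point `*`.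
  Points `x, y` of the copies `n < m` have the distance `4 * 2 ^ m + min 1 (2 ^ n * d(x, y))`, and
  the distance of `*` and `x` is `4 * 2 ^ n + min 1 d(x, A)`. A correspondence of two such spaces
  with small distortion preserves the copies, and the links between consecutive copies make its
  restrictions to the copies converge to an isometry of `U` which moves the first set into a
  neighbourhood of the second one. An isometry of `U` acts on all copies at once, and so small
  values of the orbit pseudometric give correspondences with small distortion.
* `rhoGH` reduces to `rhoU U`. The group of the permutations of `ℕ × ℕ` acts by isometries on the
  space which consists of rays attached to the points of a discrete space with the points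
  `a ∈ ℕ × ℕ` and `(a, b)`. By the construction of Katetov it has an isometric copy in `U` such that
  these isometries extend to `U`. A metric `f` is coded by the set of the points `a` and of the
  points with the parameter `f (fst a) (fst b)` on the rays of `(a, b)`. A correspondence of the
  natural numbers gives a permutation of `ℕ × ℕ`, and the permutation can be recovered from
  isometries which move one coding set near to the other one.
-/

set_option autoImplicit false

namespace Pool.Agent.Results.MP_d52b88_lc.BiReducible

open Pool.Agent.Helper89.UG

/-- There is a Urysohn space, and for every Urysohn space `U` the Gromov-Hausdorff distance and the
orbit pseudometric of the closed subsets of `U` are Borel-uniformly continuous bi-reducible. -/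
theorem result :
    (∃ (U : Type) (_ : MetricSpace U), IsUrysohn U) ∧
    ∀ (U : Type) [MetricSpace U], IsUrysohn U →
      BorelUnif rhoGH (rhoU U) ∧ BorelUnif (rhoU U) rhoGH :=
  ⟨exists_isUrysohn, fun _ _ h => ⟨gh_reduces h, orbit_reduces h⟩⟩

end Pool.Agent.Results.MP_d52b88_lc.BiReducible
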